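import Pool.Agent.Work.MP_b5407d_lbm.Interface

/-!
# Block DI: derivative of the area integrals
-/

set_option autoImplicit false

open MeasureTheory Set Filter Topology

namespace Pool.LBM

namespace DI

theorem dt_continuous (a : R2) : Continuous (fun x : R2 => dt a x) := by
  unfold dt
  fun_prop

theorem ex_continuous (l : R2) : Continuous (fun x : R2 => ex l x) := by
  unfold ex
  exact Real.continuous_exp.comp (dt_continuous l)

section
variable {ι : Type} {θ : ι → R2}

theorem HP_closed (θ : ι → R2) (h : ι → ℝ) : IsClosed (HP θ h) := by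
  have e : HP θ h = ⋂ i, {x | dt (θ i) x ≤ h i} := by
    ext x
    simp [HP]
  rw [e]
  exact isClosed_iInter fun i => isClosed_le (dt_continuous _) continuous_const

theorem HP_compact (hθ : Nor θ) (h : ι → ℝ) : IsCompact (HP θ h) :=
  Metric.isCompact_of_isClosed_isBounded (HP_closed θ h) (hθ.bdd h)

theorem int_on (hθ : Nor θ) (h : ι → ℝ) {f : R2 → ℝ} (hf : Continuous f) :
    IntegrableOn f (HP θ h) volume :=
  hf.continuousOn.integrableOn_compact (HP_compact hθ h)

theorem ex_add (l lam x : R2) (s : ℝ) : ex (l + s • lam) x = ex l x * Real.exp (s * dt lam x) := by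
  unfold ex dt
  rw [← Real.exp_add]
  congr 1
  simp only [Prod.fst_add, Prod.snd_add, Prod.smul_fst, Prod.smul_snd, smul_eq_mul]
  ring

/-- the remainder -/
theorem rem_bound (hθ : Nor θ) (h g : ι → ℝ) (l lam : R2) {F : R2 → ℝ} (hF : Continuous F) :
    (fun s : ℝ => II θ (fun x => F x * ex (l + s • lam) x) (fun j => h j + s * g j) -
      II θ (fun x => F x * ex l x) (fun j => h j + s * g j) -
      s * II θ (fun x => F x * dt lam x * ex l x) (fun j => h j + s * g j)) =O[𝓝 0]
      fun s : ℝ => ‖s - 0‖ ^ 2 := by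
  obtain ⟨M, hM⟩ := (HP_compact hθ (fun j => h j + |g j|)).exists_bound_of_continuousOn
    (dt_continuous lam).continuousOn
  obtain ⟨M', hM'⟩ : ∃ M', M' = max M 0 := ⟨_, rfl⟩
  have hM'0 : 0 ≤ M' := by rw [hM']; exact le_max_right _ _
  have hM2 : ∀ x ∈ HP θ (fun j => h j + |g j|), |dt lam x| ≤ M' := by
    intro x hx
    rw [hM']
    exact (hM x hx).trans (le_max_left _ _)
  have hFex : Continuous (fun x : R2 => F x * ex l x) := hF.mul (ex_continuous l)
  have hFe2 : Continuous (fun x : R2 => F x * dt lam x * ex l x) :=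
    (hF.mul (dt_continuous lam)).mul (ex_continuous l)
  apply Asymptotics.IsBigO.of_bound
    ((∫ x in HP θ (fun j => h j + |g j|), |F x * ex l x|) * M' ^ 2)
  have hev : ∀ᶠ s : ℝ in 𝓝 0, |s| < 1 / (M' + 1) := by
    have h1 : Tendsto (fun s : ℝ => |s|) (𝓝 0) (𝓝 |(0 : ℝ)|) := continuous_abs.tendsto 0
    rw [abs_zero] at h1
    exact h1.eventually (gt_mem_nhds (by positivity))
  filter_upwards [hev] with s hs
  have hs1 : |s| * (M' + 1) ≤ 1 := by
    rw [lt_div_iff₀ (by positivity)] at hs
    exact hs.le
  have hs2 : |s| ≤ 1 := by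
    have : |s| * 1 ≤ |s| * (M' + 1) := mul_le_mul_of_nonneg_left (by linarith) (abs_nonneg s)
    linarith
  have hsub : HP θ (fun j => h j + s * g j) ⊆ HP θ (fun j => h j + |g j|) := by
    intro x hx i
    refine (hx i).trans ?_
    have h1 : s * g i ≤ |s * g i| := le_abs_self _
    have h2 : |s * g i| ≤ |g i| := by
      rw [abs_mul]
      exact mul_le_of_le_one_left (abs_nonneg _) hs2
    have h3 : s * g i ≤ |g i| := h1.trans h2
    change h i + s * g i ≤ h i + |g i|
    linarith
  have hI1 : IntegrableOn (fun x => F x * ex (l + s • lam) x) (HP θ (fun j => h j + s * g j)) :=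
    int_on hθ _ (hF.mul (ex_continuous _))
  have hI2 := int_on hθ (fun j => h j + s * g j) hFex
  have hI3 := int_on hθ (fun j => h j + s * g j) hFe2
  have heq : II θ (fun x => F x * ex (l + s • lam) x) (fun j => h j + s * g j) -
      II θ (fun x => F x * ex l x) (fun j => h j + s * g j) -
      s * II θ (fun x => F x * dt lam x * ex l x) (fun j => h j + s * g j) =
      ∫ x in HP θ (fun j => h j + s * g j),
        (F x * ex l x) * (Real.exp (s * dt lam x) - 1 - s * dt lam x) := by
    unfold II
    have hI12 : IntegrableOn (fun x => F x * ex (l + s • lam) x - F x * ex l x)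
      (HP θ (fun j => h j + s * g j)) := hI1.sub hI2
    have hI3s : IntegrableOn (fun x => s * (F x * dt lam x * ex l x))
      (HP θ (fun j => h j + s * g j)) := hI3.const_mul s
    rw [← integral_const_mul, ← integral_sub hI1 hI2, ← integral_sub hI12 hI3s]
    apply integral_congr_ae
    filter_upwards with x
    rw [ex_add]
    ring
  have hpt : ∀ x ∈ HP θ (fun j => h j + s * g j),
      ‖(F x * ex l x) * (Real.exp (s * dt lam x) - 1 - s * dt lam x)‖ ≤
        |F x * ex l x| * (M' ^ 2 * s ^ 2) := by
    intro x hx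
    rw [Real.norm_eq_abs, abs_mul]
    apply mul_le_mul_of_nonneg_left _ (abs_nonneg _)
    have h1 : |dt lam x| ≤ M' := hM2 x (hsub hx)
    have h2 : |s * dt lam x| ≤ 1 := by
      rw [abs_mul]
      have : |s| * |dt lam x| ≤ |s| * (M' + 1) :=
        mul_le_mul_of_nonneg_left (by linarith) (abs_nonneg s)
      linarith
    refine (Real.abs_exp_sub_one_sub_id_le h2).trans ?_
    have h3 : dt lam x ^ 2 ≤ M' ^ 2 := by
      rw [← sq_abs (dt lam x)]
      exact pow_le_pow_left₀ (abs_nonneg _) h1 2
    calc (s * dt lam x) ^ 2 = dt lam x ^ 2 * s ^ 2 := by ring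
      _ ≤ M' ^ 2 * s ^ 2 := mul_le_mul_of_nonneg_right h3 (sq_nonneg s)
  rw [heq]
  have hb1 : ‖∫ x in HP θ (fun j => h j + s * g j),
      (F x * ex l x) * (Real.exp (s * dt lam x) - 1 - s * dt lam x)‖ ≤
      ∫ x in HP θ (fun j => h j + s * g j), |F x * ex l x| * (M' ^ 2 * s ^ 2) := by
    refine (norm_integral_le_integral_norm _).trans ?_
    apply setIntegral_mono_on
    · have hc : Continuous (fun x : R2 =>
          (F x * ex l x) * (Real.exp (s * dt lam x) - 1 - s * dt lam x)) := by
        have hd := dt_continuous lam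
        exact hFex.mul (((Real.continuous_exp.comp (continuous_const.mul hd)).sub
          continuous_const).sub (continuous_const.mul hd))
      exact (int_on hθ _ hc).norm
    · exact ((int_on hθ _ hFex).norm).mul_const _
    · exact (HP_closed θ _).measurableSet
    · exact hpt
  have hb2 : (∫ x in HP θ (fun j => h j + s * g j), |F x * ex l x| * (M' ^ 2 * s ^ 2)) ≤
      ∫ x in HP θ (fun j => h j + |g j|), |F x * ex l x| * (M' ^ 2 * s ^ 2) := by
    apply setIntegral_mono_set
    · exact ((int_on hθ _ hFex).norm).mul_const _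
    · filter_upwards with x
      positivity
    · exact hsub.eventuallyLE
  refine (hb1.trans hb2).trans ?_
  rw [integral_mul_const, sub_zero]
  have e : ‖‖s‖ ^ 2‖ = s ^ 2 := by
    rw [Real.norm_eq_abs, Real.norm_eq_abs, sq_abs, abs_of_nonneg (sq_nonneg s)]
  rw [e]
  apply le_of_eq
  ring

theorem gen [Fintype ι] (hFV : Stmt_FV) (hθ : Nor θ) (h g : ι → ℝ) (hfat : Fat θ h)
    (l lam : R2) {F : R2 → ℝ} (hF : Continuous F) :
    HasDerivAt (fun s : ℝ => II θ (fun x => F x * ex (l + s • lam) x) (fun j => h j + s * g j))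
      (∑ j, g j * FI θ (fun x => F x * ex l x) h j +
        ∫ x in HP θ h, F x * dt lam x * ex l x) 0 := by
  have hFex : Continuous (fun x : R2 => F x * ex l x) := hF.mul (ex_continuous l)
  have hFe2 : Continuous (fun x : R2 => F x * dt lam x * ex l x) :=
    (hF.mul (dt_continuous lam)).mul (ex_continuous l)
  have hA := hFV ι θ (fun x => F x * ex l x) h g hθ hFex hfat
  have hB := hFV ι θ (fun x => F x * dt lam x * ex l x) h g hθ hFe2 hfat
  have hC := (hasDerivAt_id (0 : ℝ)).mul hB
  have hR := ((rem_bound hθ h g l lam hF).hasFDerivAt (by norm_num)).hasDerivAt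
  have hS := (hR.add hA).add hC
  have e0 : (fun j => h j + (0 : ℝ) * g j) = h := by
    funext j
    ring
  refine (hS.congr_deriv ?_).congr_of_eventuallyEq ?_
  · simp only [ContinuousLinearMap.zero_apply, zero_add, one_mul, id_eq, zero_mul, add_zero]
    unfold II
    simp only [add_zero]
  · filter_upwards with s
    simp only [Pi.add_apply, Pi.mul_apply, id_eq]
    ring

end

end DI

theorem blk_DI : Stmt_FV → Stmt_GF → Stmt_GN → Stmt_DI := by
  intro hFV hGF hGN n θ P ℓ l lam W F hG hF hW
  obtain ⟨hNor, hFat, -⟩ := hGN n θ P ℓ hG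
  have h1 := DI.gen hFV hNor (gh n θ P) (fun k : Fin n => dt (θ k) (W k)) hFat l lam hF
  have e1 : ∀ s : ℝ, (fun j : Fin n => gh n θ P j + s * dt (θ j) (W j)) =
      gh n θ (fun k => P k + s • W k) := by
    intro s
    funext j
    unfold gh dt
    simp only [Prod.fst_add, Prod.snd_add, Prod.smul_fst, Prod.smul_snd, smul_eq_mul]
    ring
  simp only [e1] at h1
  refine h1.congr_deriv ?_
  unfold dII GP
  congr 1
  rw [Finset.sum_range]
  apply Finset.sum_congr rfl
  intro k _
  rw [hGF n θ P ℓ _ hG k]

end Pool.LBM
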